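import Mathlib

/-!
# CN matrices of pure braid projections: the conjectured characterisation fails from nine strands on

A T0 zero pattern is a naturally labelled poset (strands `i < j` which do not cross are comparable, T0 is
transitivity).  If the other entries are `2`, a pure braid projection with this CN matrix is a motion of
points on a line in which every incomparable pair is out of order during exactly one interval of time.

We use the poset on `0, ..., 8` with the covering relations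
`0 < 2, 0 < 4, 1 < 2, 1 < 3, 1 < 6, 2 < 8, 3 < 7, 4 < 5, 4 < 8, 5 < 7, 6 < 7, 6 < 8`.
Let `a, b, c, d, e, f` be times at which the pairs `03, 06, 15, 27, 38, 58` are out of order.  Then

* `01` is out of order at `a` and `b`, in order at `c`,
* `56` is out of order at `b` and `f`, in order at `c`,
* `25` is out of order at `c` and `d`, in order at `f`,
* `34` is out of order at `c` and `e`, in order at `a`,
* `23` is out of order at `a` and `d`, in order at `e`,
* `78` is out of order at `e` and `f`, in order at `d`,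

so that `c` is not between `a` and `b`, and so on; no linear order of the six times has these properties.
-/

namespace Pool.Agent.Results.MP_550572_gt.NineStrands

open Set

/-- An `n`-braid projection.  The strand `i` is the curve of the points `(x i t, t)`, where `t`, running from
`0` to `1`, is the depth below the upper bar; in particular strands run monotonically.  Strands are numbered
from left to right by their starting positions, two strands meet in finitely many points, never on the bars,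
they pass to the other side of each other at each meeting point, and no three strands meet in a point. -/
structure BraidProjection (n : ℕ) where
  x : Fin n → ℝ → ℝ
  continuous : ∀ i, ContinuousOn (x i) (Icc 0 1)
  top_lt : ∀ i j, i < j → x i 0 < x j 0
  bottom_ne : ∀ i j, i ≠ j → x i 1 ≠ x j 1
  finite : ∀ i j, i ≠ j → {t | t ∈ Icc (0 : ℝ) 1 ∧ x i t = x j t}.Finite
  transverse : ∀ i j, i ≠ j → ∀ t ∈ Icc (0 : ℝ) 1, x i t = x j t →
    ∃ ε > 0, ∀ s ∈ Ioo (t - ε) t, ∀ u ∈ Ioo t (t + ε), (x i s - x j s) * (x i u - x j u) < 0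
  double : ∀ i j k, i ≠ j → j ≠ k → i ≠ k → ∀ t ∈ Icc (0 : ℝ) 1, ¬ (x i t = x j t ∧ x j t = x k t)

/-- The projection is pure: the strand `i` ends at the `i`-th position of the lower bar. -/
def BraidProjection.Pure {n : ℕ} (P : BraidProjection n) : Prop :=
  ∀ i j, i < j → P.x i 1 < P.x j 1

/-- The CN matrix: the entry `(i, j)` is the number of crossings of the strands `i` and `j`. -/
noncomputable def BraidProjection.cn {n : ℕ} (P : BraidProjection n) : Matrix (Fin n) (Fin n) ℕ :=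
  fun i j => if i = j then 0 else {t | t ∈ Icc (0 : ℝ) 1 ∧ P.x i t = P.x j t}.ncard

/-- The property T0. -/
def T0 {n : ℕ} (M : Matrix (Fin n) (Fin n) ℕ) : Prop :=
  (∀ i, M i i = 0) ∧ ∀ i j k, i < j → j < k → M i j = 0 → M j k = 0 → M i k = 0

/-- For `i < j`: whether the strands `i` and `j` cross (twice) in our matrix. -/
def crosses (i j : ℕ) : Bool :=
  (i, j) ∈ [(0, 1), (0, 3), (0, 6), (1, 4), (1, 5), (2, 3), (2, 4), (2, 5), (2, 6), (2, 7), (3, 4), (3, 5), (3, 6),
    (3, 8), (4, 6), (5, 6), (5, 8), (7, 8)]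

/-- The matrix: the entries are `0` and `2`. -/
def mat (n : ℕ) : Matrix (Fin n) (Fin n) ℕ := fun i j =>
  if i < j then (if crosses i j then 2 else 0) else if j < i then (if crosses j i then 2 else 0) else 0

theorem crosses_T0 : ∀ k < 9, ∀ j < k, ∀ i < j, crosses i j = false → crosses j k = false →
    crosses i k = false := by
  decide

theorem crosses_big (i k : ℕ) (hk : 9 ≤ k) : crosses i k = false := by
  simp only [crosses, List.mem_cons, Prod.mk.injEq, List.mem_nil_iff, or_false, decide_eq_false_iff_not]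
  omega

theorem mat_T0 (n : ℕ) : T0 (mat n) := by
  constructor
  · intro i
    simp [mat]
  · intro i j k hij hjk h1 h2
    have h3 : i < k := hij.trans hjk
    simp only [mat, hij, hjk, h3, if_true] at h1 h2 ⊢
    have h1' : crosses i j = false := by
      by_contra h
      simp only [Bool.not_eq_false] at h
      simp [h] at h1
    have h2' : crosses j k = false := by
      by_contra h
      simp only [Bool.not_eq_false] at h
      simp [h] at h2
    have : crosses i k = false := by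
      by_cases hk : (k : ℕ) < 9
      · exact crosses_T0 k hk j hjk i hij h1' h2'
      · exact crosses_big i k (not_lt.mp hk)
    simp [this]

theorem mat_symm (n : ℕ) : (mat n).IsSymm := by
  ext i j
  simp only [Matrix.transpose_apply, mat]
  rcases lt_trichotomy i j with h | h | h
  · simp [h, h.not_gt]
  · subst h; rfl
  · simp [h, h.not_gt]

theorem mat_even (n : ℕ) (i j : Fin n) : Even (mat n i j) := by
  unfold mat
  split_ifs <;> decide

theorem mat_02 (n : ℕ) (i j : Fin n) : mat n i j = 0 ∨ mat n i j = 2 := by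
  unfold mat
  split_ifs <;> simp

section braid

variable {n : ℕ} (P : BraidProjection n)

/-- intermediate value: if `f` and `g` are in different order at `s` and `u` they agree in between -/
theorem meet {f g : ℝ → ℝ} (hf : ContinuousOn f (Icc 0 1)) (hg : ContinuousOn g (Icc 0 1)) {s u : ℝ}
    (h0 : 0 ≤ s) (h1 : u ≤ 1) (hsu : s ≤ u)
    (h : (f s < g s ∧ g u ≤ f u) ∨ (g s < f s ∧ f u ≤ g u)) :
    ∃ t, s < t ∧ t ≤ u ∧ f t = g t := by
  have hsub : Icc s u ⊆ Icc (0 : ℝ) 1 := Icc_subset_Icc h0 h1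
  have hc : ContinuousOn (fun t => f t - g t) (Icc s u) := (hf.mono hsub).sub (hg.mono hsub)
  rcases h with ⟨h2, h3⟩ | ⟨h2, h3⟩
  · have := intermediate_value_Icc hsu hc
    obtain ⟨t, ht, hft⟩ := this (show (0 : ℝ) ∈ Icc (f s - g s) (f u - g u) from
      ⟨by linarith, by linarith⟩)
    have hft' : f t = g t := by simp only at hft; linarith
    refine ⟨t, lt_of_le_of_ne ht.1 ?_, ht.2, hft'⟩
    rintro rfl
    linarith
  · have := intermediate_value_Icc' hsu hc
    obtain ⟨t, ht, hft⟩ := this (show (0 : ℝ) ∈ Icc (f u - g u) (f s - g s) from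
      ⟨by linarith, by linarith⟩)
    have hft' : f t = g t := by simp only at hft; linarith
    refine ⟨t, lt_of_le_of_ne ht.1 ?_, ht.2, hft'⟩
    rintro rfl
    linarith

/-- Strands which do not cross stay in order. -/
theorem stay (i j : Fin n) (hij : i < j) (h : P.cn i j = 0) (t : ℝ) (ht : t ∈ Icc (0 : ℝ) 1) :
    P.x i t < P.x j t := by
  have hne : i ≠ j := hij.ne
  unfold BraidProjection.cn at h
  rw [if_neg hne, ncard_eq_zero (P.finite i j hne)] at h
  by_contra hcon
  obtain ⟨u, hu1, hu2, hu3⟩ := meet (P.continuous i) (P.continuous j) (le_refl (0 : ℝ)) ht.2 ht.1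
    (Or.inl ⟨P.top_lt i j hij, not_lt.mp hcon⟩)
  have : u ∈ {t | t ∈ Icc (0 : ℝ) 1 ∧ P.x i t = P.x j t} := ⟨⟨hu1.le, hu2.trans ht.2⟩, hu3⟩
  rw [h] at this
  exact this

/-- Strands which cross twice are out of order at some time. -/
theorem witness (i j : Fin n) (hij : i < j) (h : P.cn i j = 2) :
    ∃ t ∈ Icc (0 : ℝ) 1, P.x j t < P.x i t := by
  have hne : i ≠ j := hij.ne
  unfold BraidProjection.cn at h
  rw [if_neg hne, ncard_eq_two] at h
  obtain ⟨a, b, hab, hS⟩ := h
  have ha : a ∈ {t | t ∈ Icc (0 : ℝ) 1 ∧ P.x i t = P.x j t} := by rw [hS]; simp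
  obtain ⟨ha1, ha2⟩ := ha
  have h0 : a ≠ 0 := by
    rintro rfl
    exact absurd ha2 (P.top_lt i j hij).ne
  have h1 : a ≠ 1 := by
    rintro rfl
    exact absurd ha2 (P.bottom_ne i j hne)
  have h0' : 0 < a := lt_of_le_of_ne ha1.1 (Ne.symm h0)
  have h1' : a < 1 := lt_of_le_of_ne ha1.2 h1
  obtain ⟨ε, hε, htr⟩ := P.transverse i j hne a ha1 ha2
  obtain ⟨s, hs1, hs2⟩ := exists_between (show max (a - ε) 0 < a from max_lt (by linarith) h0')
  obtain ⟨u, hu1, hu2⟩ := exists_between (show a < min (a + ε) 1 from lt_min (by linarith) h1')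
  have hs3 := max_lt_iff.mp hs1
  have hu3 := lt_min_iff.mp hu2
  have hprod := htr s ⟨hs3.1, hs2⟩ u ⟨hu1, hu3.1⟩
  by_contra hcon
  push Not at hcon
  have hs := hcon s ⟨hs3.2.le, (hs2.trans h1').le⟩
  have hu := hcon u ⟨(h0'.trans hu1).le, hu3.2.le⟩
  have := mul_nonneg (sub_nonneg.mpr hs) (sub_nonneg.mpr hu)
  nlinarith

/-- Strands of a pure projection which cross twice are out of order during an interval. -/
theorem interval (i j : Fin n) (hij : i < j) (h : P.cn i j = 2) (s t u : ℝ)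
    (hs : s ∈ Icc (0 : ℝ) 1) (hu : u ∈ Icc (0 : ℝ) 1) (hst : s < t) (htu : t < u)
    (h1 : P.x j s < P.x i s) (h2 : P.x i t < P.x j t) (h3 : P.x j u < P.x i u) : False := by
  have hne : i ≠ j := hij.ne
  obtain ⟨a, ha1, ha2, ha3⟩ := meet (P.continuous i) (P.continuous j) (le_refl (0 : ℝ)) hs.2 hs.1
    (Or.inl ⟨P.top_lt i j hij, h1.le⟩)
  obtain ⟨b, hb1, hb2, hb3⟩ := meet (P.continuous i) (P.continuous j) hs.1 (htu.le.trans hu.2) hst.le
    (Or.inr ⟨h1, h2.le⟩)
  obtain ⟨c, hc1, hc2, hc3⟩ := meet (P.continuous i) (P.continuous j) (hs.1.trans hst.le) hu.2 htu.le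
    (Or.inl ⟨h2, h3.le⟩)
  unfold BraidProjection.cn at h
  rw [if_neg hne] at h
  have hsub : ({a, b, c} : Set ℝ) ⊆ {t | t ∈ Icc (0 : ℝ) 1 ∧ P.x i t = P.x j t} := by
    intro y hy
    simp only [mem_insert_iff, mem_singleton_iff] at hy
    rcases hy with rfl | rfl | rfl
    · exact ⟨⟨ha1.le, ha2.trans hs.2⟩, ha3⟩
    · exact ⟨⟨hs.1.trans hb1.le, hb2.trans (htu.le.trans hu.2)⟩, hb3⟩
    · exact ⟨⟨(hs.1.trans hst.le).trans hc1.le, hc2.trans hu.2⟩, hc3⟩
  have hcard := ncard_le_ncard hsub (P.finite i j hne)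
  have hab : a < b := ha2.trans_lt hb1
  have hbc : b < c := hb2.trans_lt hc1
  have h3' : ({a, b, c} : Set ℝ).ncard = 3 := by
    rw [ncard_eq_three]
    exact ⟨a, b, c, hab.ne, (hab.trans hbc).ne, hbc.ne, rfl⟩
  omega

end braid

/-- The six times. -/
theorem order (a b c d e f : ℝ) (h1 : a ≠ c) (h2 : b ≠ c) (h3 : c ≠ f) (h4 : d ≠ f) (h5 : a ≠ e)
    (h6 : d ≠ e)
    (u1 : ∀ s t u : ℝ, s < t → t < u → (s = a ∨ s = b) → t = c → (u = a ∨ u = b) → False)
    (u2 : ∀ s t u : ℝ, s < t → t < u → (s = b ∨ s = f) → t = c → (u = b ∨ u = f) → False)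
    (u3 : ∀ s t u : ℝ, s < t → t < u → (s = c ∨ s = d) → t = f → (u = c ∨ u = d) → False)
    (u4 : ∀ s t u : ℝ, s < t → t < u → (s = c ∨ s = e) → t = a → (u = c ∨ u = e) → False)
    (u5 : ∀ s t u : ℝ, s < t → t < u → (s = a ∨ s = d) → t = e → (u = a ∨ u = d) → False)
    (u6 : ∀ s t u : ℝ, s < t → t < u → (s = e ∨ s = f) → t = d → (u = e ∨ u = f) → False) : False := by
  rcases lt_or_gt_of_ne h1 with ac | ca
  · have bc : b < c := lt_of_le_of_ne (not_lt.mp fun h => u1 a c b ac h (by simp) rfl (by simp)) h2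
    have fc : f < c := lt_of_le_of_ne (not_lt.mp fun h => u2 b c f bc h (by simp) rfl (by simp)) h3.symm
    have fd : f < d := lt_of_le_of_ne (not_lt.mp fun h => u3 d f c h fc (by simp) rfl (by simp)) h4.symm
    have ae : a < e := lt_of_le_of_ne (not_lt.mp fun h => u4 e a c h ac (by simp) rfl (by simp)) h5
    have de : d < e := lt_of_le_of_ne (not_lt.mp fun h => u5 a e d ae h (by simp) rfl (by simp)) h6
    exact u6 f d e fd de (by simp) rfl (by simp)
  · have cb : c < b := lt_of_le_of_ne (not_lt.mp fun h => u1 b c a h ca (by simp) rfl (by simp)) h2.symm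
    have cf : c < f := lt_of_le_of_ne (not_lt.mp fun h => u2 f c b h cb (by simp) rfl (by simp)) h3
    have df : d < f := lt_of_le_of_ne (not_lt.mp fun h => u3 c f d cf h (by simp) rfl (by simp)) h4
    have ea : e < a := lt_of_le_of_ne (not_lt.mp fun h => u4 c a e ca h (by simp) rfl (by simp)) h5.symm
    have ed : e < d := lt_of_le_of_ne (not_lt.mp fun h => u5 d e a h ea (by simp) rfl (by simp)) h6.symm
    exact u6 e d f ed df (by simp) rfl (by simp)

theorem result : ∀ n, 9 ≤ n → ∃ M : Matrix (Fin n) (Fin n) ℕ,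
    M.IsSymm ∧ (∀ i j, Even (M i j)) ∧ T0 M ∧ (∀ i j, M i j = 0 ∨ M i j = 2) ∧
      ¬ ∃ P : BraidProjection n, P.Pure ∧ P.cn = M := by
  intro n hn
  refine ⟨mat n, mat_symm n, mat_even n, mat_T0 n, mat_02 n, ?_⟩
  rintro ⟨P, -, hcn⟩
  -- strands by number
  let s : ℕ → Fin n := fun k => if h : k < n then ⟨k, h⟩ else ⟨0, by omega⟩
  have hs : ∀ k, k < 9 → ((s k : Fin n) : ℕ) = k := by
    intro k hk
    have : k < n := by omega
    simp [s, this]
  have hlt : ∀ i j, i < j → j < 9 → s i < s j := by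
    intro i j hij hj
    rw [Fin.lt_def, hs i (by omega), hs j hj]
    exact hij
  have hcross : ∀ i j, i < j → j < 9 → P.cn (s i) (s j) = if crosses i j then 2 else 0 := by
    intro i j hij hj
    rw [hcn]
    unfold mat
    rw [if_pos (hlt i j hij hj), hs i (by omega), hs j hj]
  -- comparable strands
  have hstay : ∀ i j, i < j ∧ j < 9 ∧ crosses i j = false → ∀ t ∈ Icc (0 : ℝ) 1,
      P.x (s i) t < P.x (s j) t := by
    rintro i j ⟨hij, hj, hc⟩ t ht
    refine stay P _ _ (hlt i j hij hj) ?_ t ht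
    rw [hcross i j hij hj, hc]
    simp
  -- incomparable strands
  have hint : ∀ i j, i < j ∧ j < 9 ∧ crosses i j = true → ∀ a b c, a ∈ Icc (0 : ℝ) 1 →
      c ∈ Icc (0 : ℝ) 1 → a < b → b < c → P.x (s j) a < P.x (s i) a → P.x (s i) b < P.x (s j) b →
      P.x (s j) c < P.x (s i) c → False := by
    rintro i j ⟨hij, hj, hc⟩ a b c ha hc' hab hbc h1 h2 h3
    refine interval P _ _ (hlt i j hij hj) ?_ a b c ha hc' hab hbc h1 h2 h3
    rw [hcross i j hij hj, hc]
    simp
  have hwit : ∀ i j, i < j ∧ j < 9 ∧ crosses i j = true →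
      ∃ t ∈ Icc (0 : ℝ) 1, P.x (s j) t < P.x (s i) t := by
    rintro i j ⟨hij, hj, hc⟩
    refine witness P _ _ (hlt i j hij hj) ?_
    rw [hcross i j hij hj, hc]
    simp
  -- the six times
  obtain ⟨a, ha, ha'⟩ := hwit 0 3 (by decide)
  obtain ⟨b, hb, hb'⟩ := hwit 0 6 (by decide)
  obtain ⟨c, hc, hc'⟩ := hwit 1 5 (by decide)
  obtain ⟨d, hd, hd'⟩ := hwit 2 7 (by decide)
  obtain ⟨e, he, he'⟩ := hwit 3 8 (by decide)
  obtain ⟨f, hf, hf'⟩ := hwit 5 8 (by decide)
  have hst : ∀ i j t, (i < j ∧ j < 9 ∧ crosses i j = false) ∧ t ∈ Icc (0 : ℝ) 1 →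
      P.x (s i) t < P.x (s j) t := fun i j t h => hstay i j h.1 t h.2
  have a01 : P.x (s 1) a < P.x (s 0) a := (hst 1 3 a ⟨by decide, ha⟩).trans ha'
  have b01 : P.x (s 1) b < P.x (s 0) b := (hst 1 6 b ⟨by decide, hb⟩).trans hb'
  have c01 : P.x (s 0) c < P.x (s 1) c := (hst 0 5 c ⟨by decide, hc⟩).trans hc'
  have b56 : P.x (s 6) b < P.x (s 5) b := hb'.trans (hst 0 5 b ⟨by decide, hb⟩)
  have f56 : P.x (s 6) f < P.x (s 5) f := (hst 6 8 f ⟨by decide, hf⟩).trans hf'
  have c56 : P.x (s 5) c < P.x (s 6) c := hc'.trans (hst 1 6 c ⟨by decide, hc⟩)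
  have c25 : P.x (s 5) c < P.x (s 2) c := hc'.trans (hst 1 2 c ⟨by decide, hc⟩)
  have d25 : P.x (s 5) d < P.x (s 2) d := (hst 5 7 d ⟨by decide, hd⟩).trans hd'
  have f25 : P.x (s 2) f < P.x (s 5) f := (hst 2 8 f ⟨by decide, hf⟩).trans hf'
  have c34 : P.x (s 4) c < P.x (s 3) c :=
    ((hst 4 5 c ⟨by decide, hc⟩).trans hc').trans (hst 1 3 c ⟨by decide, hc⟩)
  have e34 : P.x (s 4) e < P.x (s 3) e := (hst 4 8 e ⟨by decide, he⟩).trans he'
  have a34 : P.x (s 3) a < P.x (s 4) a := ha'.trans (hst 0 4 a ⟨by decide, ha⟩)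
  have a23 : P.x (s 3) a < P.x (s 2) a := ha'.trans (hst 0 2 a ⟨by decide, ha⟩)
  have d23 : P.x (s 3) d < P.x (s 2) d := (hst 3 7 d ⟨by decide, hd⟩).trans hd'
  have e23 : P.x (s 2) e < P.x (s 3) e := (hst 2 8 e ⟨by decide, he⟩).trans he'
  have e78 : P.x (s 8) e < P.x (s 7) e := he'.trans (hst 3 7 e ⟨by decide, he⟩)
  have f78 : P.x (s 8) f < P.x (s 7) f := hf'.trans (hst 5 7 f ⟨by decide, hf⟩)
  have d78 : P.x (s 7) d < P.x (s 8) d := hd'.trans (hst 2 8 d ⟨by decide, hd⟩)
  have key : ∀ i j p q r, (i < j ∧ j < 9 ∧ crosses i j = true) → p ∈ Icc (0 : ℝ) 1 → q ∈ Icc (0 : ℝ) 1 →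
      P.x (s j) p < P.x (s i) p → P.x (s j) q < P.x (s i) q → P.x (s i) r < P.x (s j) r →
      ∀ x y z : ℝ, x < y → y < z → (x = p ∨ x = q) → y = r → (z = p ∨ z = q) → False := by
    intro i j p q r hij hp hq h1 h2 h3 x y z hxy hyz hx hy hz
    subst hy
    have hx' : x ∈ Icc (0 : ℝ) 1 ∧ P.x (s j) x < P.x (s i) x := by
      rcases hx with rfl | rfl
      · exact ⟨hp, h1⟩
      · exact ⟨hq, h2⟩
    have hz' : z ∈ Icc (0 : ℝ) 1 ∧ P.x (s j) z < P.x (s i) z := by
      rcases hz with rfl | rfl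
      · exact ⟨hp, h1⟩
      · exact ⟨hq, h2⟩
    exact hint i j hij x y z hx'.1 hz'.1 hxy hyz hx'.2 h3 hz'.2
  refine order a b c d e f ?_ ?_ ?_ ?_ ?_ ?_
    (key 0 1 a b c (by decide) ha hb a01 b01 c01) (key 5 6 b f c (by decide) hb hf b56 f56 c56)
    (key 2 5 c d f (by decide) hc hd c25 d25 f25) (key 3 4 c e a (by decide) hc he c34 e34 a34)
    (key 2 3 a d e (by decide) ha hd a23 d23 e23) (key 7 8 e f d (by decide) he hf e78 f78 d78)
  · rintro rfl; exact lt_asymm a01 c01
  · rintro rfl; exact lt_asymm b01 c01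
  · rintro rfl; exact lt_asymm c56 f56
  · rintro rfl; exact lt_asymm d25 f25
  · rintro rfl; exact lt_asymm a34 e34
  · rintro rfl; exact lt_asymm d23 e23

end Pool.Agent.Results.MP_550572_gt.NineStrands
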